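import Mathlib

set_option autoImplicit false

/-!
# Frequency of the maximum local independence number does not force a Hamiltonian path

The graph `G` on 16 vertices: `0` and `1` are pendant vertices attached to `2`; the vertices
`2, …, 15` form a complete graph from which the edges `34`, `35`, `45`, `23`, `24` are removed.
Its complement has 32 edges, the maximum local independence number is `3` and it is attained at the
11 vertices `2, 6, 7, …, 15`, so `(1 + 64) / 6 ≤ 11`; but `G` has no Hamiltonian path.
-/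

namespace Pool.Agent.Results.MP_81a4f1_co.NoHamPath

/-- The local independence number: the largest size of an independent set of neighbours. -/
noncomputable def localIndep {V : Type} [Fintype V] (G : SimpleGraph V) (v : V) : ℕ :=
  sSup {k : ℕ | ∃ S : Finset V, (∀ a ∈ S, G.Adj v a) ∧ (∀ a ∈ S, ∀ b ∈ S, ¬ G.Adj a b) ∧
    S.card = k}

/-- The maximum local independence number. -/
noncomputable def lambdaMax {V : Type} [Fintype V] (G : SimpleGraph V) : ℕ :=
  Finset.univ.sup (localIndep G)

/-- The number of vertices at which the maximum is attained. -/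
noncomputable def freq {V : Type} [Fintype V] (G : SimpleGraph V) : ℕ :=
  {v : V | localIndep G v = lambdaMax G}.ncard

/-- `G` has a Hamiltonian path. -/
def HasHamPath {V : Type} [DecidableEq V] (G : SimpleGraph V) : Prop :=
  ∃ (u v : V) (p : G.Walk u v), p.IsHamiltonian

/-- The pairs of vertices in `{2, …, 15}` that are not joined. -/
def removed : List (Fin 16 × Fin 16) := [(3, 4), (3, 5), (4, 5), (2, 3), (2, 4)]

/-- Adjacency. -/
def adj (i j : Fin 16) : Prop :=
  i ≠ j ∧ ((2 ≤ i ∧ 2 ≤ j ∧ (i, j) ∉ removed ∧ (j, i) ∉ removed) ∨ (i = 2 ∧ j < 2) ∨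
    (j = 2 ∧ i < 2))

instance : DecidableRel adj := fun i j => by
  unfold adj
  infer_instance

/-- The graph on 16 vertices. -/
def G : SimpleGraph (Fin 16) where
  Adj := adj
  symm := ⟨fun i j h => by
    unfold adj at h ⊢
    tauto⟩
  loopless := ⟨fun i h => h.1 rfl⟩

instance : DecidableRel G.Adj := fun i j => inferInstanceAs (Decidable (adj i j))

/-- The exceptional vertices of the neighbourhoods. -/
def exc (v : Fin 16) : Finset (Fin 16) :=
  if v < 2 then ∅ else if v = 2 then {0, 1} else if v ≤ 5 then ∅ else {3, 4}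

theorem exc_clique : ∀ v a b : Fin 16, G.Adj v a → G.Adj v b → a ∉ exc v → b ∉ exc v →
    a ≠ b → G.Adj a b := by
  decide

theorem local_le (v : Fin 16) : localIndep G v ≤ (exc v).card + 1 := by
  unfold localIndep
  apply csSup_le
  · exact ⟨0, ∅, by simp, by simp, rfl⟩
  rintro k ⟨S, h1, h2, rfl⟩
  have h3 : (S \ exc v).card ≤ 1 := by
    rw [Finset.card_le_one]
    intro a ha b hb
    rw [Finset.mem_sdiff] at ha hb
    by_contra hab
    exact h2 a ha.1 b hb.1 (exc_clique v a b (h1 a ha.1) (h1 b hb.1) ha.2 hb.2 hab)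
  have h4 := Finset.card_le_card_sdiff_add_card (s := S) (t := exc v)
  omega

theorem le_local {v : Fin 16} (S : Finset (Fin 16)) (h1 : ∀ a ∈ S, G.Adj v a)
    (h2 : ∀ a ∈ S, ∀ b ∈ S, ¬ G.Adj a b) : S.card ≤ localIndep G v := by
  unfold localIndep
  apply le_csSup
  · refine ⟨16, ?_⟩
    rintro k ⟨S, _, _, rfl⟩
    simpa using Finset.card_le_univ S
  · exact ⟨S, h1, h2, rfl⟩

theorem local_two : localIndep G 2 = 3 :=
  le_antisymm (local_le 2) (le_local {0, 1, 5} (by decide) (by decide))

theorem local_big : ∀ v : Fin 16, 6 ≤ v → localIndep G v = 3 := by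
  intro v hv
  refine le_antisymm ?_ ?_
  · have h : ∀ v : Fin 16, 6 ≤ v → (exc v).card + 1 ≤ 3 := by decide
    exact (local_le v).trans (h v hv)
  · have h1 : ∀ v : Fin 16, 6 ≤ v → ∀ a ∈ ({3, 4, 5} : Finset (Fin 16)), G.Adj v a := by decide
    exact le_local {3, 4, 5} (h1 v hv) (by decide)

theorem local_small : ∀ v : Fin 16, v ≠ 2 → ¬ 6 ≤ v → localIndep G v ≤ 1 := by
  intro v h1 h2
  have h : ∀ v : Fin 16, v ≠ 2 → ¬ 6 ≤ v → (exc v).card + 1 ≤ 1 := by decide
  exact (local_le v).trans (h v h1 h2)

theorem lambdaMax_eq : lambdaMax G = 3 := by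
  refine le_antisymm ?_ ?_
  · apply Finset.sup_le
    intro v _
    have h : ∀ v : Fin 16, (exc v).card + 1 ≤ 3 := by decide
    exact (local_le v).trans (h v)
  · rw [← local_two]
    exact Finset.le_sup (f := localIndep G) (Finset.mem_univ 2)

theorem freq_eq : freq G = 11 := by
  have h : {v : Fin 16 | localIndep G v = lambdaMax G} =
      ((Finset.univ.filter fun v : Fin 16 => v = 2 ∨ 6 ≤ v : Finset (Fin 16)) : Set (Fin 16)) := by
    ext v
    rw [lambdaMax_eq]
    simp only [Set.mem_ofPred_eq, Finset.coe_filter, Finset.mem_univ, true_and]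
    constructor
    · intro hv
      by_contra hcon
      rw [not_or] at hcon
      have := local_small v hcon.1 hcon.2
      omega
    · rintro (rfl | hv)
      · exact local_two
      · exact local_big v hv
  rw [freq, h, Set.ncard_coe_finset]
  decide

theorem compl_edges : Gᶜ.edgeSet.ncard = 32 := by
  classical
  have h1 := Gᶜ.sum_degrees_eq_twice_card_edges
  have h2 : ∑ v : Fin 16, Gᶜ.degree v = 64 := by
    have h3 : ∀ v, Gᶜ.degree v = 16 - 1 - G.degree v := by
      intro v
      rw [SimpleGraph.degree_compl, Fintype.card_fin]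
    simp only [h3]
    have h4 : ∀ v, G.degree v = (Finset.univ.filter fun w => G.Adj v w).card := by
      intro v
      rw [← SimpleGraph.card_neighborFinset_eq_degree, SimpleGraph.neighborFinset_eq_filter]
    simp only [h4]
    decide
  rw [h2] at h1
  rw [Set.ncard_eq_toFinset_card']
  have h5 : Gᶜ.edgeSet.toFinset = Gᶜ.edgeFinset := rfl
  rw [h5]
  omega

theorem connected : G.Connected := by
  have h : ∀ v : Fin 16, v ≠ 15 → G.Adj v 15 ∨ (G.Adj v 2 ∧ G.Adj 2 15) := by decide
  have hr : ∀ v, G.Reachable v 15 := by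
    intro v
    by_cases hv : v = 15
    · rw [hv]
    · rcases h v hv with h | ⟨h, h'⟩
      · exact h.reachable
      · exact h.reachable.trans h'.reachable
  exact SimpleGraph.Connected.mk fun u v => (hr u).trans (hr v).symm

theorem no_path : ¬ HasHamPath G := by
  rintro ⟨u, v, p, hp⟩
  have hpath := hp.isPath
  have hlen : p.length = 15 := by
    have := hp.length_eq
    simpa using this
  have hinj : ∀ i j, i ≤ 15 → j ≤ 15 → p.getVert i = p.getVert j → i = j := by
    intro i j hi hj h
    exact hpath.getVert_injOn (by simpa [hlen] using hi) (by simpa [hlen] using hj) h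
  have hadj : ∀ i, i < 15 → G.Adj (p.getVert i) (p.getVert (i + 1)) := by
    intro i hi
    exact p.adj_getVert_succ (by omega)
  have hmem : ∀ w : Fin 16, ∃ i, i ≤ 15 ∧ p.getVert i = w := by
    intro w
    obtain ⟨i, h1, h2⟩ := (SimpleGraph.Walk.mem_support_iff_exists_getVert).1 (hp.mem_support w)
    exact ⟨i, by omega, h1⟩
  have hpend : ∀ w x : Fin 16, w < 2 → G.Adj w x → x = 2 := by decide
  -- a pendant vertex is at one end
  have hend : ∀ w : Fin 16, w < 2 → ∀ i, i ≤ 15 → p.getVert i = w → i = 0 ∨ i = 15 := by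
    intro w hw i hi h
    by_contra hcon
    rw [not_or] at hcon
    have h1 := hadj (i - 1) (by omega)
    have h2 := hadj i (by omega)
    have e : i - 1 + 1 = i := by omega
    rw [e, h] at h1
    rw [h] at h2
    have h3 := hpend w _ hw h1.symm
    have h4 := hpend w _ hw h2
    have h5 := hinj (i - 1) (i + 1) (by omega) (by omega) (h3.trans h4.symm)
    omega
  have hnb : ∀ w : Fin 16, w < 2 → ∀ i, i ≤ 15 → p.getVert i = w →
      (i = 0 → p.getVert 1 = 2) ∧ (i = 15 → p.getVert 14 = 2) := by
    intro w hw i hi h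
    constructor
    · rintro rfl
      have h2 := hadj 0 (by omega)
      rw [h] at h2
      exact hpend w _ hw h2
    · rintro rfl
      have h2 := hadj 14 (by omega)
      have e : 14 + 1 = 15 := rfl
      rw [e, h] at h2
      exact hpend w _ hw h2.symm
  obtain ⟨i, hi, hi'⟩ := hmem 0
  obtain ⟨j, hj, hj'⟩ := hmem 1
  have hij : i ≠ j := by
    rintro rfl
    rw [hi'] at hj'
    exact absurd hj' (by decide)
  have key : p.getVert 1 = 2 ∧ p.getVert 14 = 2 := by
    rcases hend 0 (by decide) i hi hi' with h | h <;> rcases hend 1 (by decide) j hj hj' with h' | h'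
    · omega
    · exact ⟨(hnb 0 (by decide) i hi hi').1 h, (hnb 1 (by decide) j hj hj').2 h'⟩
    · exact ⟨(hnb 1 (by decide) j hj hj').1 h', (hnb 0 (by decide) i hi hi').2 h⟩
    · omega
  have := hinj 1 14 (by omega) (by omega) (key.1.trans key.2.symm)
  omega

/-- **Negative answer to Q1.** -/
theorem result : ∃ G : SimpleGraph (Fin 16), G.Connected ∧
    (1 / 6 : ℝ) * (1 + 2 * (Gᶜ.edgeSet.ncard : ℝ)) ≤ (freq G : ℝ) ∧ ¬ HasHamPath G := by
  refine ⟨G, connected, ?_, no_path⟩
  rw [compl_edges, freq_eq]
  norm_num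

end Pool.Agent.Results.MP_81a4f1_co.NoHamPath
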